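import Pool.Agent.Helper826.Barely.Perm

/-!
MP_a05498_al: a `p`-group with a transitive finitary action on an infinite set whose elements have
cycles filling at least a fixed proportion of arbitrarily large finite blocks is not a minimal
non-FC-group.
-/

set_option autoImplicit false

namespace Pool.Agent.Results.MP_a05498_al.LongCycles

/-- Let `p` be a prime and `G` a `p`-group acting (not necessarily faithfully) and transitively on
an infinite set `Ω`, each element moving only finitely many points. Suppose that for some `r`
every finite subset of `Ω` lies in a finite block `B` such that an orbit of the cyclic group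
generated by some element of `G` contains at least `|B| / r` points of `B`. Then some proper
subgroup `H` of `G` has an element with infinitely many conjugates in `H`. -/
theorem result (p : ℕ) (hp : p.Prime) (G Ω : Type*) [Group G] [MulAction G Ω] [Infinite Ω]
    (hG : ∀ g : G, ∃ n : ℕ, g ^ p ^ n = 1)
    (hfin : ∀ g : G, {a : Ω | g • a ≠ a}.Finite)
    (htr : ∀ a b : Ω, ∃ g : G, g • a = b)
    (r : ℕ)
    (hr : ∀ F : Set Ω, F.Finite → ∃ B : Set Ω, F ⊆ B ∧ B.Finite ∧
      (∀ g : G, (fun b => g • b) '' B = B ∨ Disjoint ((fun b => g • b) '' B) B) ∧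
      ∃ x : G, ∃ a : Ω, B.ncard ≤ r * (B ∩ {b | ∃ n : ℤ, x ^ n • a = b}).ncard) :
    ∃ H : Subgroup G, H ≠ ⊤ ∧ ∃ h ∈ H, {b : G | ∃ c ∈ H, b = c * h * c⁻¹}.Infinite := by
  obtain ⟨H, hH, a, ha⟩ :=
    Pool.Agent.Helper826.Barely.action_main p hp G Ω hG hfin htr r hr
  exact ⟨H, hH, Pool.Agent.Helper826.Barely.not_fc hfin H a ha⟩

end Pool.Agent.Results.MP_a05498_al.LongCycles
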